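import Mathlib
import Pool.Agent.R268.Sobczyk

/-!
# MP_b3b95b: bounded extensions of biorthogonal functionals with dense sum

The associated functionals of the minimal sequence are first extended to a weak-star null sequence
of functionals on the whole space (Sobczyk-Veech), and then corrected by an absolutely convergent
series of functionals which vanish on the closed span of the sequence.
-/

set_option autoImplicit false

open Filter Topology

namespace Pool.Agent.Results.MP_b3b95b_an.BoundedExtensions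

open Pool.Agent.R268.Sobczyk

universe u

/-- The closed linear span of a sequence. -/
def closedSpan (𝕜 : Type) [RCLike 𝕜] {E : Type u} [NormedAddCommGroup E] [NormedSpace 𝕜 E]
    (x : ℕ → E) : Submodule 𝕜 E :=
  (Submodule.span 𝕜 (Set.range x)).topologicalClosure

theorem mem_closedSpan {𝕜 : Type} [RCLike 𝕜] {E : Type u} [NormedAddCommGroup E]
    [NormedSpace 𝕜 E] (x : ℕ → E) (n : ℕ) : x n ∈ closedSpan 𝕜 x :=
  Submodule.le_topologicalClosure _ (Submodule.subset_span ⟨n, rfl⟩)

section

variable {𝕜 : Type} [RCLike 𝕜] {E : Type u} [NormedAddCommGroup E] [NormedSpace 𝕜 E]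

/-- bounded functionals biorthogonal to `x` tend to zero on the closed span of `x` -/
theorem tendsto_zero (x : ℕ → E) (F : ℕ → StrongDual 𝕜 E) (C : ℝ) (hC : ∀ n, ‖F n‖ ≤ C)
    (hF : ∀ i j, F i (x j) = if i = j then 1 else 0) (v : E) (hv : v ∈ closedSpan 𝕜 x) :
    Tendsto (fun n => F n v) atTop (𝓝 0) := by
  have hC0 : 0 ≤ C := (norm_nonneg _).trans (hC 0)
  rw [Metric.tendsto_atTop]
  intro ε hε
  have hv' : v ∈ closure (Submodule.span 𝕜 (Set.range x) : Set E) := by
    rw [← Submodule.topologicalClosure_coe]; exact hv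
  obtain ⟨w, hw, hwd⟩ := Metric.mem_closure_iff.1 hv' (ε / (C + 1)) (by positivity)
  rw [SetLike.mem_coe, Finsupp.mem_span_range_iff_exists_finsupp] at hw
  obtain ⟨a, ha⟩ := hw
  refine ⟨a.support.sup id + 1, fun n hn => ?_⟩
  have h1 : F n w = 0 := by
    rw [← ha, Finsupp.sum, map_sum]
    refine Finset.sum_eq_zero (fun j hj => ?_)
    have h2 : j ≤ a.support.sup id := Finset.le_sup (f := id) hj
    rw [map_smul, hF, if_neg (by omega), smul_zero]
  rw [dist_zero_right]
  have h3 : F n v = F n (v - w) := by rw [map_sub, h1, sub_zero]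
  rw [h3]
  rw [dist_eq_norm, lt_div_iff₀ (by positivity)] at hwd
  calc ‖F n (v - w)‖ ≤ ‖F n‖ * ‖v - w‖ := (F n).le_opNorm _
    _ ≤ C * ‖v - w‖ := mul_le_mul_of_nonneg_right (hC n) (norm_nonneg _)
    _ ≤ ‖v - w‖ * (C + 1) := by nlinarith [norm_nonneg (v - w)]
    _ < ε := hwd

/-- the properties of the correcting system up to stage `n` -/
def Good (G : Submodule 𝕜 E) (T : ℕ → StrongDual 𝕜 E) (u : ℕ → E) (ε : ℝ) (n : ℕ)
    (s : ℕ → E × StrongDual 𝕜 E) : Prop :=
  (∀ k < n, ∀ v ∈ G, (s k).2 v = 0) ∧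
  (∀ k < n, ∀ l < n, k ≠ l → (s k).2 (s l).1 = 0) ∧
  (∀ k < n, (s k).2 (s k).1 = 1 ∨ (s k).1 = 0 ∧ (s k).2 = 0) ∧
  (∀ k < n, ∀ m, ‖T m (s k).1‖ * ‖(s k).2‖ ≤ ε * (1 / 2) ^ (k + 1)) ∧
  (∀ k < n, u k ∈ (G ⊔ Submodule.span 𝕜 ((fun j => (s j).1) '' Set.Iio (k + 1))).topologicalClosure)

theorem exists_system (x : ℕ → E) (T : ℕ → StrongDual 𝕜 E)
    (hT : ∀ i j, T i (x j) = if i = j then 1 else 0)
    (hT0 : ∀ v, Tendsto (fun n => T n v) atTop (𝓝 0)) (u : ℕ → E) (ε : ℝ) (hε : 0 < ε) :
    ∃ s : ℕ → E × StrongDual 𝕜 E, ∀ n, Good (closedSpan 𝕜 x) T u ε n s := by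
  classical
  set G := closedSpan 𝕜 x with hG
  refine exists_seq_of_step _ ?_ ?_ ?_
  · rintro n s t hst ⟨h1, h2, h3, h4, h5⟩
    refine ⟨fun k hk => ?_, fun k hk l hl => ?_, fun k hk => ?_, fun k hk => ?_, fun k hk => ?_⟩
    · rw [← hst k hk]; exact h1 k hk
    · rw [← hst k hk, ← hst l hl]; exact h2 k hk l hl
    · rw [← hst k hk]; exact h3 k hk
    · rw [← hst k hk]; exact h4 k hk
    · have h6 : (fun j => (t j).1) '' Set.Iio (k + 1) = (fun j => (s j).1) '' Set.Iio (k + 1) := by
        refine Set.image_congr (fun j hj => ?_)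
        have : j < k + 1 := hj
        rw [hst j (by omega)]
      rw [h6]; exact h5 k hk
  · intro s
    refine ⟨?_, ?_, ?_, ?_, ?_⟩ <;> intro k hk <;> exact absurd hk (Nat.not_lt_zero _)
  · rintro n s ⟨h1, h2, h3, h4, h5⟩
    -- it is enough to find the new pair
    have key : ∃ a : E × StrongDual 𝕜 E, (∀ v ∈ G, a.2 v = 0) ∧
        (∀ l < n, a.2 (s l).1 = 0) ∧ (∀ k < n, (s k).2 a.1 = 0) ∧
        (a.2 a.1 = 1 ∨ a.1 = 0 ∧ a.2 = 0) ∧
        (∀ m, ‖T m a.1‖ * ‖a.2‖ ≤ ε * (1 / 2) ^ (n + 1)) ∧
        u n ∈ (G ⊔ Submodule.span 𝕜 (insert a.1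
          ((fun j => (s j).1) '' Set.Iio n))).topologicalClosure := by
      by_cases hu : u n ∈ (G ⊔ Submodule.span 𝕜
          ((fun j => (s j).1) '' Set.Iio n)).topologicalClosure
      · refine ⟨(0, 0), fun _ _ => rfl, fun _ _ => rfl, fun k _ => map_zero _,
          Or.inr ⟨rfl, rfl⟩, fun m => ?_, ?_⟩
        · rw [map_zero, norm_zero, zero_mul]; positivity
        · exact Submodule.topologicalClosure_mono (sup_le_sup_left
            (Submodule.span_mono (Set.subset_insert _ _)) _) hu
      · set W := (G ⊔ Submodule.span 𝕜 ((fun j => (s j).1) '' Set.Iio n)).topologicalClosure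
          with hW
        have hGW : G ≤ W := le_sup_left.trans (Submodule.le_topologicalClosure _)
        have hsW : ∀ j < n, (s j).1 ∈ W := fun j hj =>
          Submodule.le_topologicalClosure _ (Submodule.mem_sup_right
            (Submodule.subset_span ⟨j, hj, rfl⟩))
        set w : E := u n - ∑ k ∈ Finset.range n, (s k).2 (u n) • (s k).1 with hw
        have hwW : w ∉ W := by
          intro hcon
          apply hu
          have : u n = w + ∑ k ∈ Finset.range n, (s k).2 (u n) • (s k).1 := by rw [hw]; abel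
          rw [this]
          exact W.add_mem hcon (W.sum_mem (fun k hk =>
            W.smul_mem _ (hsW k (Finset.mem_range.1 hk))))
        obtain ⟨h, hh1, hh2⟩ := exists_functional W (Submodule.isClosed_topologicalClosure _) w hwW
        have hhpos : 0 < ‖h‖ := by
          rw [norm_pos_iff]
          rintro rfl
          simp at hh2
        set η : ℝ := ε * (1 / 2) ^ (n + 1) / ‖h‖ with hη
        have hηpos : 0 < η := by positivity
        obtain ⟨N, hN⟩ := (Metric.tendsto_atTop.1 (hT0 w)) η hηpos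
        set g : E := ∑ j ∈ Finset.range N, T j w • x j with hg
        have hgG : g ∈ G := G.sum_mem (fun j _ => G.smul_mem _ (mem_closedSpan x j))
        have hTg : ∀ m, T m g = if m < N then T m w else 0 := by
          intro m
          rw [hg, map_sum]
          simp only [map_smul, hT, smul_eq_mul, mul_ite, mul_one, mul_zero]
          rw [Finset.sum_ite_eq]
          simp only [Finset.mem_range]
        have hkw : ∀ k < n, (s k).2 w = 0 := by
          intro k hk
          rw [hw, map_sub, map_sum, Finset.sum_eq_single k]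
          · rw [map_smul, smul_eq_mul]
            rcases h3 k hk with h6 | ⟨-, h6⟩
            · rw [h6, mul_one, sub_self]
            · rw [h6]; simp
          · intro l hl hlk
            rw [map_smul, h2 k hk l (Finset.mem_range.1 hl) (Ne.symm hlk), smul_zero]
          · intro hk'
            exact absurd (Finset.mem_range.2 hk) hk'
        refine ⟨(w - g, h), fun v hv => hh1 v (hGW hv), fun l hl => hh1 _ (hsW l hl),
          fun k hk => ?_, Or.inl ?_, fun m => ?_, ?_⟩
        · change (s k).2 (w - g) = 0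
          rw [map_sub, hkw k hk, h1 k hk g hgG, sub_zero]
        · change h (w - g) = 1
          rw [map_sub, hh2, hh1 g (hGW hgG), sub_zero]
        · change ‖T m (w - g)‖ * ‖h‖ ≤ _
          rw [map_sub, hTg]
          by_cases hm : m < N
          · rw [if_pos hm, sub_self, norm_zero, zero_mul]; positivity
          · rw [if_neg hm, sub_zero]
            have h6 := hN m (not_lt.1 hm)
            rw [dist_zero_right, hη, lt_div_iff₀ hhpos] at h6
            exact h6.le
        · refine Submodule.le_topologicalClosure _ ?_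
          have h7 : u n = (g + (w - g)) + ∑ k ∈ Finset.range n, (s k).2 (u n) • (s k).1 := by
            rw [hw]; abel
          rw [h7]
          refine Submodule.add_mem _ (Submodule.add_mem _ (Submodule.mem_sup_left hgG)
            (Submodule.mem_sup_right (Submodule.subset_span (Set.mem_insert _ _)))) ?_
          refine Submodule.mem_sup_right (Submodule.sum_mem _ (fun k hk => ?_))
          exact Submodule.smul_mem _ _ (Submodule.subset_span (Set.mem_insert_of_mem _
            ⟨k, Finset.mem_range.1 hk, rfl⟩))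
    obtain ⟨a, a1, a2, a3, a4, a5, a6⟩ := key
    have hup : ∀ k, k < n → Function.update s n a k = s k := fun k hk =>
      Function.update_of_ne (by omega) _ _
    have hupn : Function.update s n a n = a := Function.update_self _ _ _
    have hcases : ∀ k, k < n + 1 → k < n ∨ k = n := fun k hk => by omega
    refine ⟨a, fun k hk v hv => ?_, fun k hk l hl hkl => ?_, fun k hk => ?_, fun k hk m => ?_,
      fun k hk => ?_⟩
    · rcases hcases k hk with hk | rfl
      · rw [hup k hk]; exact h1 k hk v hv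
      · rw [hupn]; exact a1 v hv
    · rcases hcases k hk with hk | rfl
      · rcases hcases l hl with hl | rfl
        · rw [hup k hk, hup l hl]; exact h2 k hk l hl hkl
        · rw [hup k hk, hupn]; exact a3 k hk
      · rcases hcases l hl with hl | rfl
        · rw [hupn, hup l hl]; exact a2 l hl
        · exact absurd rfl hkl
    · rcases hcases k hk with hk | rfl
      · rw [hup k hk]; exact h3 k hk
      · rw [hupn]; exact a4
    · rcases hcases k hk with hk | rfl
      · rw [hup k hk]; exact h4 k hk m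
      · rw [hupn]; exact a5 m
    · rcases hcases k hk with hk | rfl
      · have h6 : (fun j => (Function.update s n a j).1) '' Set.Iio (k + 1) =
            (fun j => (s j).1) '' Set.Iio (k + 1) := by
          refine Set.image_congr (fun j hj => ?_)
          have : j < k + 1 := hj
          rw [hup j (by omega)]
        rw [h6]; exact h5 k hk
      · have h6 : (fun j => (Function.update s k a j).1) '' Set.Iio (k + 1) =
            insert a.1 ((fun j => (s j).1) '' Set.Iio k) := by
          ext v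
          constructor
          · rintro ⟨j, hj, rfl⟩
            have hj' : j < k + 1 := hj
            rcases hcases j hj' with hj'' | rfl
            · right
              exact ⟨j, hj'', by simp only [hup j hj'']⟩
            · left
              simp only [hupn]
          · rintro (rfl | ⟨j, hj, rfl⟩)
            · exact ⟨k, Set.mem_Iio.2 (Nat.lt_succ_self k), by simp only [hupn]⟩
            · have hj' : j < k := hj
              exact ⟨j, Set.mem_Iio.2 (by omega), by simp only [hup j hj']⟩
        rw [h6]; exact a6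

end

/-- **Positive answer to Q1.** Let `x` be a minimal sequence in a separable Banach space `E` (real
or complex) whose associated functionals `φ n`, elements of the dual of the closed linear span of
`x`, are bounded by `C`. For every `ε > 0` the `φ n` have extensions `f n` in the dual of `E` with
norms at most `2 C + ε` such that the sum of the closed linear span of `x` and of the common kernel
of the `f n` is dense in `E`. -/
theorem result (𝕜 : Type) [RCLike 𝕜] (E : Type u) [NormedAddCommGroup E] [NormedSpace 𝕜 E]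
    [CompleteSpace E] [TopologicalSpace.SeparableSpace E] (x : ℕ → E)
    (φ : ℕ → StrongDual 𝕜 (closedSpan 𝕜 x))
    (hφ : ∀ i j, φ i ⟨x j, mem_closedSpan x j⟩ = if i = j then 1 else 0)
    (C : ℝ) (hC : ∀ n, ‖φ n‖ ≤ C) (ε : ℝ) (hε : 0 < ε) :
    ∃ f : ℕ → StrongDual 𝕜 E,
      (∀ (n : ℕ) (v : closedSpan 𝕜 x), f n (v : E) = φ n v) ∧
      (∀ n, ‖f n‖ ≤ 2 * C + ε) ∧
      Dense {v : E | ∃ g ∈ closedSpan 𝕜 x, ∃ z : E, (∀ n, f n z = 0) ∧ v = g + z} := by
  classical
  choose F hF1 hF2 using fun n => exists_extension_norm_eq (closedSpan 𝕜 x) (φ n)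
  have hFC : ∀ n, ‖F n‖ ≤ C := fun n => (hF2 n).trans_le (hC n)
  have hFx : ∀ i j, F i (x j) = if i = j then 1 else 0 := fun i j => by
    rw [← hφ i j, ← hF1]
  obtain ⟨T, hT1, hT2, hT3⟩ := null_correction (closedSpan 𝕜 x) C F hFC
    (fun v hv => tendsto_zero x F C hFC hFx v hv)
  have hTx : ∀ i j, T i (x j) = if i = j then 1 else 0 := fun i j => by
    rw [hT1 i _ (mem_closedSpan x j), hFx]
  let u : ℕ → E := TopologicalSpace.denseSeq E
  have hu : DenseRange u := TopologicalSpace.denseRange_denseSeq E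
  obtain ⟨s, hs⟩ := exists_system x T hTx hT3 u ε hε
  have s1 : ∀ k, ∀ v ∈ closedSpan 𝕜 x, (s k).2 v = 0 := fun k => (hs (k + 1)).1 k (Nat.lt_succ_self k)
  have s2 : ∀ k l, k ≠ l → (s k).2 (s l).1 = 0 := fun k l =>
    (hs (max k l + 1)).2.1 k (by omega) l (by omega)
  have s3 : ∀ k, (s k).2 (s k).1 = 1 ∨ (s k).1 = 0 ∧ (s k).2 = 0 := fun k =>
    (hs (k + 1)).2.2.1 k (Nat.lt_succ_self k)
  have s4 : ∀ k m, ‖T m (s k).1‖ * ‖(s k).2‖ ≤ ε * (1 / 2) ^ (k + 1) := fun k =>
    (hs (k + 1)).2.2.2.1 k (Nat.lt_succ_self k)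
  have s5 : ∀ k, u k ∈ (closedSpan 𝕜 x ⊔ Submodule.span 𝕜
      ((fun j => (s j).1) '' Set.Iio (k + 1))).topologicalClosure := fun k =>
    (hs (k + 1)).2.2.2.2 k (Nat.lt_succ_self k)
  have hgeo : HasSum (fun k : ℕ => ε * (1 / 2 : ℝ) ^ (k + 1)) ε := by
    have h1 := (hasSum_geometric_two).mul_left (ε / 2)
    have h2 : ε / 2 * 2 = ε := by ring
    rw [h2] at h1
    refine h1.congr_fun (fun k => ?_) |> fun h => h
    rw [pow_succ]; ring
  have hterm : ∀ n k, ‖T n (s k).1 • (s k).2‖ ≤ ε * (1 / 2 : ℝ) ^ (k + 1) := fun n k => by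
    rw [norm_smul]; exact s4 k n
  have hsum : ∀ n, Summable (fun k => T n (s k).1 • (s k).2) := fun n =>
    Summable.of_norm_bounded hgeo.summable (hterm n)
  let R : ℕ → StrongDual 𝕜 E := fun n => ∑' k, T n (s k).1 • (s k).2
  have hR : ∀ n v, R n v = ∑' k, T n (s k).1 * (s k).2 v := by
    intro n v
    have h1 := ((hsum n).hasSum).mapL (ContinuousLinearMap.apply 𝕜 𝕜 v)
    exact (h1.tsum_eq).symm
  have hRn : ∀ n, ‖R n‖ ≤ ε := fun n => tsum_of_norm_bounded hgeo (hterm n)
  let f : ℕ → StrongDual 𝕜 E := fun n => T n - R n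
  have hf : ∀ n v, f n v = T n v - R n v := fun _ _ => rfl
  refine ⟨f, fun n v => ?_, fun n => ?_, ?_⟩
  · rw [hf, hR, hT1 n v v.2, hF1]
    have h1 : ∀ k, T n (s k).1 * (s k).2 (v : E) = 0 := fun k => by
      rw [s1 k v v.2, mul_zero]
    simp only [h1, tsum_zero, sub_zero]
  · calc ‖f n‖ ≤ ‖T n‖ + ‖R n‖ := norm_sub_le _ _
      _ ≤ 2 * C + ε := add_le_add (hT2 n) (hRn n)
  · have hfy : ∀ l n, f n (s l).1 = 0 := by
      intro l n
      rw [hf, hR, tsum_eq_single l]
      · rcases s3 l with h1 | ⟨h1, -⟩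
        · rw [h1, mul_one, sub_self]
        · rw [h1]; simp
      · intro k hk
        rw [s2 k l hk, mul_zero]
    let Z : Submodule 𝕜 E := ⨅ n, LinearMap.ker (f n : E →ₗ[𝕜] 𝕜)
    have hZ : ∀ v, v ∈ Z ↔ ∀ n, f n v = 0 := by
      intro v
      simp [Z, Submodule.mem_iInf]
    have hset : {v : E | ∃ g ∈ closedSpan 𝕜 x, ∃ z : E, (∀ n, f n z = 0) ∧ v = g + z} =
        ((closedSpan 𝕜 x ⊔ Z : Submodule 𝕜 E) : Set E) := by
      ext v
      rw [Set.mem_setOf_eq, SetLike.mem_coe, Submodule.mem_sup]
      constructor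
      · rintro ⟨g, hg, z, hz, rfl⟩
        exact ⟨g, hg, z, (hZ z).2 hz, rfl⟩
      · rintro ⟨g, hg, z, hz, rfl⟩
        exact ⟨g, hg, z, (hZ z).1 hz, rfl⟩
    rw [hset]
    have hle : ∀ k, (closedSpan 𝕜 x ⊔ Submodule.span 𝕜 ((fun j => (s j).1) '' Set.Iio (k + 1))) ≤ closedSpan 𝕜 x ⊔ Z := by
      intro k
      refine sup_le_sup_left ?_ _
      rw [Submodule.span_le]
      rintro _ ⟨j, -, rfl⟩
      exact (hZ _).2 (hfy j)
    have hcl : ∀ k, u k ∈ closure ((closedSpan 𝕜 x ⊔ Z : Submodule 𝕜 E) : Set E) := by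
      intro k
      have h1 := Submodule.topologicalClosure_mono (hle k) (s5 k)
      rwa [← SetLike.mem_coe, Submodule.topologicalClosure_coe] at h1
    have h2 : closure (Set.range u) ⊆ closure ((closedSpan 𝕜 x ⊔ Z : Submodule 𝕜 E) : Set E) := by
      refine closure_minimal ?_ isClosed_closure
      rintro _ ⟨k, rfl⟩
      exact hcl k
    intro v
    exact h2 (hu v)

end Pool.Agent.Results.MP_b3b95b_an.BoundedExtensions
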